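import Pool.Agent.H28.LF.AllL
import Pool.Agent.H28.LF.Brg
import Pool.Agent.H28.LF.F4
import Pool.Agent.H1.LF.UN2
import Pool.Agent.H14.LF.CRG

/-!
# Products over intervals of a function of `λ` and `μ ^ 2` (`MP_c59857_nt`)

Here `λ(n) = (-1) ^ Ω(n)`, where `Ω` is `ArithmeticFunction.cardFactors`, and `μ` is
`ArithmeticFunction.moebius`.
-/

set_option autoImplicit false

open Finset

namespace Pool.Agent.H28.Kept.IntervalProducts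

open Pool.Agent.H28.LF in
theorem result (u : ℤ → ℤ → ℂ) (hu : ∀ a b, ‖u a b‖ = 1) (h1 : u 1 1 ≠ u (-1) 1)
    (ε : ℝ) (hε : 0 < ε) :
    ∃ K₀ : ℕ, 0 < K₀ ∧ ∀ (K x y : ℕ) (w : ℕ → ℕ → ℂ) (I : ℕ → ℕ → Finset (ℕ × ℕ)),
      K₀ ≤ K → K ≤ x → K₀ * x ≤ y → (∀ N n, ‖w N n‖ ≤ 1) →
      (∀ N k, ∀ J ∈ I N k, J.1 + K₀ ≤ J.2 ∧ J.2 ≤ N) →
      (∀ N k, (I N k : Set (ℕ × ℕ)).PairwiseDisjoint (fun J => Ioc J.1 J.2)) →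
      ∑ N ∈ Icc x y, (∑ k ∈ Icc 1 K, ∑ J ∈ I N k,
        ‖∑ n ∈ Ioc J.1 J.2, w N n *
          ∏ i ∈ Icc 1 k, u ((-1) ^ ArithmeticFunction.cardFactors (n + i))
            (ArithmeticFunction.moebius (n + i) ^ 2)‖) / ((K : ℝ) * (N : ℝ) ^ 2) ≤
        ε * Real.log ((y : ℝ) / x) := by
  have hm := Um_ul2 u hu h1
  have h2 : ThmU2 (ul2 u) := Pool.Agent.H1.LF.pf_UN2 AllL.f_BLI AllL.f_SBX _ hm (AllL.thmU _ hm)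
  have hG : T_CRG := Pool.Agent.H14.LF.pf_CRG (Pool.Agent.H14.LF.pf_CRH AllL.f_CR1) AllL.f_SBX
  obtain ⟨K₀, hK₀, h⟩ := hG (ul2 u) hm h2 ε hε
  refine ⟨K₀, hK₀, fun K x y w I a1 a2 a3 a4 a5 a6 => ?_⟩
  refine le_trans (le_of_eq ?_) (h K x y w I a1 a2 a3 a4 a5 a6)
  simp only [Fk_ul2]

end Pool.Agent.H28.Kept.IntervalProducts
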