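import Mathlib
import Pool.Agent.H28.ChowlaMain

set_option autoImplicit false

open Finset Filter

namespace Pool.Agent.Results.MP_c59857_nt.OddOrder

/-- The value of the product is `0`, `1` or `-1`. -/
theorem prod_trichotomy {r : ℕ} (α : Fin r → ℤ) (ε : Fin r → ℕ) (n : ℕ) :
    ∏ i, ArithmeticFunction.moebius ((n + α i).toNat) ^ ε i = 0 ∨
    ∏ i, ArithmeticFunction.moebius ((n + α i).toNat) ^ ε i = 1 ∨
    ∏ i, ArithmeticFunction.moebius ((n + α i).toNat) ^ ε i = -1 := by
  classical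
  have hgen : ∀ s : Finset (Fin r),
      ∏ i ∈ s, ArithmeticFunction.moebius ((n + α i).toNat) ^ ε i = 0 ∨
      ∏ i ∈ s, ArithmeticFunction.moebius ((n + α i).toNat) ^ ε i = 1 ∨
      ∏ i ∈ s, ArithmeticFunction.moebius ((n + α i).toNat) ^ ε i = -1 := by
    intro s
    induction s using Finset.induction_on with
    | empty => right; left; simp
    | insert x s hx ih =>
      rw [Finset.prod_insert hx]
      have h1 : ArithmeticFunction.moebius ((n + α x).toNat) ^ ε x = 0 ∨
          ArithmeticFunction.moebius ((n + α x).toNat) ^ ε x = 1 ∨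
          ArithmeticFunction.moebius ((n + α x).toNat) ^ ε x = -1 := by
        rcases ArithmeticFunction.moebius_eq_or ((n + α x).toNat) with h | h | h
        · rw [h]
          rcases Nat.eq_zero_or_pos (ε x) with h0 | h0
          · right; left; rw [h0, pow_zero]
          · left; exact zero_pow h0.ne'
        · rw [h, one_pow]; right; left; rfl
        · rw [h]; right; exact neg_one_pow_eq_or ℤ _
      rcases ih with h | h | h <;> rcases h1 with h1 | h1 | h1 <;> simp [h, h1]
  exact hgen Finset.univ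

theorem result (r q : ℕ) (hq : 0 < q) :
    ∃ c : ℝ, 0 < c ∧
      ∀ (α : Fin r → ℤ) (ε : Fin r → ℕ), (∀ i, 1 ≤ ε i) → Odd (∑ i, ε i) →
        ∀ n₀ : ℕ, ∏ i, ArithmeticFunction.moebius ((n₀ + α i).toNat) ^ ε i ≠ 0 →
          ∀ᶠ N : ℕ in atTop,
            |∑ n ∈ (Finset.Icc 1 N).filter (fun n : ℕ => n ≡ n₀ [MOD q]),
              ∏ i, ((ArithmeticFunction.moebius ((n + α i).toNat) : ℤ) : ℝ) ^ ε i| ≤
            (∑ n ∈ (Finset.Icc 1 N).filter (fun n : ℕ => n ≡ n₀ [MOD q]),
              |∏ i, ((ArithmeticFunction.moebius ((n + α i).toNat) : ℤ) : ℝ) ^ ε i|)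
              - 2 * c * N := by
  classical
  obtain ⟨c, hc, h⟩ := Pool.Agent.H28.chowla_odd_main r q hq
  refine ⟨c, hc, ?_⟩
  intro α ε hε hodd n₀ hn₀
  have hp := h α ε hε hodd n₀ hn₀ 1 (Or.inl rfl)
  have hm := h α ε hε hodd n₀ hn₀ (-1) (Or.inr rfl)
  filter_upwards [hp, hm] with N h1 h2
  set S := (Finset.Icc 1 N).filter (fun n : ℕ => n ≡ n₀ [MOD q]) with hS
  set G : ℕ → ℤ := fun n => ∏ i, ArithmeticFunction.moebius ((n + α i).toNat) ^ ε i with hG
  have hcast : ∀ n : ℕ, ∏ i, ((ArithmeticFunction.moebius ((n + α i).toNat) : ℤ) : ℝ) ^ ε i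
      = (G n : ℝ) := by
    intro n; simp only [hG]; push_cast; rfl
  simp only [hcast]
  have e1 : (Finset.Icc 1 N).filter (fun n : ℕ => n ≡ n₀ [MOD q] ∧ G n = 1) =
      S.filter (fun n => G n = 1) := by
    rw [hS, Finset.filter_filter]
  have e2 : (Finset.Icc 1 N).filter (fun n : ℕ => n ≡ n₀ [MOD q] ∧ G n = -1) =
      S.filter (fun n => G n = -1) := by
    rw [hS, Finset.filter_filter]
  rw [e1] at h1
  rw [e2] at h2
  have s1 : ((S.filter (fun n => G n = 1)).card : ℝ) = ∑ n ∈ S, (if G n = 1 then (1 : ℝ) else 0) := by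
    rw [Finset.card_filter]; push_cast; rfl
  have s2 : ((S.filter (fun n => G n = -1)).card : ℝ) =
      ∑ n ∈ S, (if G n = -1 then (1 : ℝ) else 0) := by
    rw [Finset.card_filter]; push_cast; rfl
  have t1 : ∑ n ∈ S, (G n : ℝ) =
      ((S.filter (fun n => G n = 1)).card : ℝ) - ((S.filter (fun n => G n = -1)).card : ℝ) := by
    rw [s1, s2, ← Finset.sum_sub_distrib]
    apply Finset.sum_congr rfl
    intro n _
    rcases prod_trichotomy α ε n with h0 | h0 | h0 <;>
      (have h0' : G n = _ := h0; rw [h0']; norm_num)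
  have t2 : ∑ n ∈ S, |(G n : ℝ)| =
      ((S.filter (fun n => G n = 1)).card : ℝ) + ((S.filter (fun n => G n = -1)).card : ℝ) := by
    rw [s1, s2, ← Finset.sum_add_distrib]
    apply Finset.sum_congr rfl
    intro n _
    rcases prod_trichotomy α ε n with h0 | h0 | h0 <;>
      (have h0' : G n = _ := h0; rw [h0']; norm_num)
  rw [t1, t2, abs_le]
  constructor <;> linarith

end Pool.Agent.Results.MP_c59857_nt.OddOrder
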