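import Mathlib
import Pool.Agent.H24.T2.Final

set_option autoImplicit false

open Finset Filter

namespace Pool.Agent.Results.MP_c59857_nt.SignChanges

theorem cast_eq {r : ℕ} (α : Fin r → ℤ) (ε : Fin r → ℕ) (n : ℕ) :
    Pool.Agent.H24.T2.Fr α ε n =
      ((∏ i, ArithmeticFunction.moebius (((n : ℤ) + α i).toNat) ^ ε i : ℤ) : ℝ) := by
  unfold Pool.Agent.H24.T2.Fr
  push_cast
  rfl

/-- Every instance of Chowla's conjecture, in every residue class on which the product is not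
identically zero: at every large scale a positive proportion of the windows of a fixed length
contain both a value `1` and a value `-1` of the product. -/
theorem result (r : ℕ) (α : Fin r → ℤ) (ε : Fin r → ℕ) (q n₀ : ℕ)
    (hα : Function.Injective α) (hε : ∀ i, 1 ≤ ε i) (hodd : ∃ i, Odd (ε i)) (hq : 0 < q)
    (hn₀ : ∏ i, ArithmeticFunction.moebius (((n₀ : ℤ) + α i).toNat) ^ ε i ≠ 0) :
    ∃ (h : ℕ) (c : ℝ), 0 < c ∧ ∀ᶠ N : ℕ in atTop,
      c * N ≤ (((Finset.Icc 1 N).filter (fun n : ℕ =>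
        (∃ i ∈ Finset.Icc n (n + h), i ≡ n₀ [MOD q] ∧
          ∏ j, ArithmeticFunction.moebius (((i : ℤ) + α j).toNat) ^ ε j = 1) ∧
        (∃ i ∈ Finset.Icc n (n + h), i ≡ n₀ [MOD q] ∧
          ∏ j, ArithmeticFunction.moebius (((i : ℤ) + α j).toNat) ^ ε j = -1))).card : ℝ) := by
  classical
  have h0 : Pool.Agent.H24.T2.Fr α ε n₀ ≠ 0 := by
    rw [cast_eq]
    exact_mod_cast hn₀
  obtain ⟨h, c, hc, hN⟩ := Pool.Agent.H24.T2.sc r α ε q n₀ hα hε hodd hq h0
  refine ⟨h, c, hc, ?_⟩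
  filter_upwards [hN] with N h1
  refine h1.trans (le_of_eq ?_)
  congr 2
  ext n
  simp only [Finset.mem_filter, cast_eq]
  have e1 : ∀ x : ℤ, ((x : ℝ) = 1) ↔ x = 1 := fun x => by norm_cast
  have e2 : ∀ x : ℤ, ((x : ℝ) = -1) ↔ x = -1 := fun x => by
    constructor
    · intro h; exact_mod_cast h
    · intro h; rw [h]; norm_num
  simp only [e1, e2]

end Pool.Agent.Results.MP_c59857_nt.SignChanges
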