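import Pool.Agent.H31.UF.All

/-!
# Gowers uniformity along linear families of shifts

The shifts are `a i + b i . t + c i * p` with `t` in `[1, T] ^ m` (logarithmic averages) and `p` a
prime.  If one form with an odd exponent is affinely independent, with respect to its part
`(1, a i, b i)`, of the other ones with odd exponents, then the Gowers norms of every order of the
products of the shifted Möbius functions tend to zero at almost all scales, for almost all `t`,
uniformly in `T`, and for all primes `p` outside a set whose sum of reciprocals is bounded.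
-/

set_option autoImplicit false

namespace Pool.Agent.Results.MP_c59857_nt.UniformFamilies

open Pool.Agent.H31.UF (fn gowers)

open Classical in
/-- Gowers uniformity along linear families of shifts. -/
theorem result (k m r : ℕ) (a : Fin r → ℤ) (b : Fin r → Fin m → ℤ) (c : Fin r → ℤ)
    (ε : Fin r → ℕ) (q n₀ : ℕ) (j : Fin r) (hk : 1 ≤ k) (hε : ∀ i, 1 ≤ ε i) (hj : Odd (ε j))
    (hq : 0 < q)
    (hind : (Fin.cons 1 (Fin.cons (a j : ℚ) (fun l => (b j l : ℚ))) : Fin (m + 2) → ℚ) ∉
      Submodule.span ℚ {z | ∃ i, i ≠ j ∧ Odd (ε i) ∧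
        z = (Fin.cons 1 (Fin.cons (a i : ℚ) (fun l => (b i l : ℚ))) : Fin (m + 2) → ℚ)})
    (ρ : ℝ) (hρ : 0 < ρ) :
    ∃ C : ℝ, ∀ P : ℕ, ∃ K : ℕ, ∀ T x y : ℕ, K ≤ T → 0 < x → K * x ≤ y →
      ((T : ℝ) / x) ^ K ≤ (y : ℝ) / x →
      ∑ p ∈ ((Finset.Icc 1 P).filter Nat.Prime).filter (fun p : ℕ =>
        ρ * Real.log T ^ m * Real.log (y / x) <
          ∑ t ∈ Fintype.piFinset (fun _ : Fin m => Finset.Icc 1 T),
            (∏ l, (1 : ℝ) / t l) * ∑ N ∈ Finset.Icc x y,
              (1 / (N : ℝ)) * gowers k N (fn a b c ε q n₀ N t p)),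
        (1 / (p : ℝ)) ≤ C :=
  Pool.Agent.H31.UF.fin_explicit Pool.Agent.H31.UF.All.x_FIN k m r a b c ε q n₀ j hk hε hj hq
    hind ρ hρ

end Pool.Agent.Results.MP_c59857_nt.UniformFamilies
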